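import Mathlib
import Pool.Agent.Lib.MP_e83d06_co.Final

set_option autoImplicit false

namespace Pool.Agent.Results.MP_e83d06_co.Disproof

open Pool.Agent.Lib.MP_e83d06_co

/-- **Theorem.** For every real `C` there are a finite connected simple graph `G` with as many edges
as vertices (that is, with exactly one cycle) and an edge `e = uv` of `G`, whose end `v` has degree
one, such that `μ(G) - μ(G/e) < C`. In particular (`C = 1/3`) the inequality
`μ(G) - μ(G/e) ≥ 1/3` is false, and contracting an edge can increase the mean subtree order by an
arbitrarily large amount. -/
theorem result (C : ℝ) :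
    ∃ (V : Type) (_ : Fintype V) (_ : DecidableEq V) (G : SimpleGraph V) (u v : V),
      G.Connected ∧ G.edgeSet.ncard = Fintype.card V ∧ G.Adj u v ∧
      (∀ w, G.Adj v w → w = u) ∧
      meanSubtreeOrder G - meanSubtreeOrder (contract G u v) < C :=
  main C

end Pool.Agent.Results.MP_e83d06_co.Disproof
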